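import Pool.Agent.H413.G.R_seed8.H494R3.NK.Stmts

/-!
# Project H494-NK, TaskSplit (helper853)
-/

set_option autoImplicit false

namespace Pool.Agent.H853R3.NK.Split

open Pool.Agent.H494R3.NK

universe u

section
variable {R : Type u} [NonUnitalRing R]

lemma s1_mul (a b : R) : s1 a * s1 b = s1 (a * b) := by
  ext i j
  rw [Matrix.mul_apply]
  simp [s1]

lemma s1_add (a b : R) : s1 a + s1 b = s1 (a + b) := rfl

lemma s1_inj {a b : R} (h : s1 a = s1 b) : a = b := congrFun (congrFun h 0) 0

lemma eq_s1 (M : Matrix (Fin 1) (Fin 1) R) : M = s1 (M 0 0) := by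
  ext i j
  rw [Subsingleton.elim i 0, Subsingleton.elim j 0]
  rfl

lemma stab2 {ι κ : Type} [Fintype ι] [Fintype κ] {f : Matrix κ κ R} (hf : f * f = f) :
    Eqv (Matrix.fromBlocks (0 : Matrix ι ι R) 0 0 f) f := by
  refine ⟨Matrix.fromRows 0 f, Matrix.fromCols 0 f, ?_, ?_⟩
  · rw [rowcol]
    simp [hf]
  · rw [colrow]
    simp [hf]

lemma cut {ι κ : Type} [Fintype ι] [Fintype κ] {a : Matrix ι κ R} {b : Matrix κ ι R}
    {B P Q : Matrix κ κ R} (hB : b * a = B) (hPB : P * B = P) :
    (a * P * b) * (a * Q * b) = a * (P * Q) * b := by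
  calc (a * P * b) * (a * Q * b) = a * (P * (b * a)) * Q * b := by
        simp only [Matrix.mul_assoc]
    _ = a * (P * Q) * b := by
        rw [hB, hPB]
        simp only [Matrix.mul_assoc]

lemma cutEqv {ι κ : Type} [Fintype ι] [Fintype κ] {a : Matrix ι κ R} {b : Matrix κ ι R}
    {B P : Matrix κ κ R} (hB : b * a = B) (hP : P * P = P) (hPB : P * B = P) :
    Eqv (a * P * b) P := by
  refine ⟨a * P, P * b, ?_, ?_⟩
  · calc (a * P) * (P * b) = a * (P * P) * b := by simp only [Matrix.mul_assoc]
      _ = a * P * b := by rw [hP]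
  · calc (P * b) * (a * P) = P * (b * a) * P := by simp only [Matrix.mul_assoc]
      _ = P := by rw [hB, hPB, hP]

theorem split (p : R) (hp : p * p = p) (x y : VV R) (h : cl hp = x + y) :
    ∃ (e f : R) (he : e * e = e) (hf : f * f = f),
      e + f = p ∧ e * f = 0 ∧ f * e = 0 ∧ cl he = x ∧ cl hf = y := by
  induction x using Quotient.ind with
  | _ x =>
    induction y using Quotient.ind with
    | _ y =>
      have h1 : Eqv (s1 p) (x.add y).mat := VV.mk_eq.1 h
      have h2 : Eqv (s1 p) (Matrix.fromBlocks x.mat 0 0 y.mat) :=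
        Eqv.trans (s1_idem hp) (idem_blocks x.idem y.idem) h1 (Eqv.blk x.idem y.idem).symm
      obtain ⟨a, b, hab, hba⟩ := h2
      set B := Matrix.fromBlocks x.mat 0 0 y.mat with hBdef
      set P : Matrix (Fin x.size ⊕ Fin y.size) (Fin x.size ⊕ Fin y.size) R :=
        Matrix.fromBlocks x.mat 0 0 0 with hP
      set Q : Matrix (Fin x.size ⊕ Fin y.size) (Fin x.size ⊕ Fin y.size) R :=
        Matrix.fromBlocks 0 0 0 y.mat with hQ
      have hPP : P * P = P := by
        rw [hP, Matrix.fromBlocks_multiply]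
        simp [x.idem]
      have hQQ : Q * Q = Q := by
        rw [hQ, Matrix.fromBlocks_multiply]
        simp [y.idem]
      have hPQ : P * Q = 0 := by
        rw [hP, hQ, Matrix.fromBlocks_multiply]
        simp
      have hQP : Q * P = 0 := by
        rw [hP, hQ, Matrix.fromBlocks_multiply]
        simp
      have hPB : P * B = P := by
        rw [hP, hBdef, Matrix.fromBlocks_multiply]
        simp [x.idem]
      have hQB : Q * B = Q := by
        rw [hQ, hBdef, Matrix.fromBlocks_multiply]
        simp [y.idem]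
      have hsum : P + Q = B := by
        rw [hP, hQ, hBdef, Matrix.fromBlocks_add]
        simp
      obtain ⟨e, he⟩ : ∃ e, a * P * b = s1 e := ⟨_, eq_s1 _⟩
      obtain ⟨f, hf⟩ : ∃ f, a * Q * b = s1 f := ⟨_, eq_s1 _⟩
      have hee : e * e = e := by
        apply s1_inj
        rw [← s1_mul, ← he, cut hba hPB, hPP]
      have hff : f * f = f := by
        apply s1_inj
        rw [← s1_mul, ← hf, cut hba hQB, hQQ]
      have hef : e * f = 0 := by
        apply s1_inj
        rw [← s1_mul, ← he, ← hf, cut hba hPB, hPQ, Matrix.mul_zero, Matrix.zero_mul]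
        rfl
      have hfe : f * e = 0 := by
        apply s1_inj
        rw [← s1_mul, ← he, ← hf, cut hba hQB, hQP, Matrix.mul_zero, Matrix.zero_mul]
        rfl
      have hadd : e + f = p := by
        apply s1_inj
        rw [← s1_add, ← he, ← hf, ← Matrix.add_mul, ← Matrix.mul_add, hsum, ← hba]
        calc a * (b * a) * b = (a * b) * (a * b) := by simp only [Matrix.mul_assoc]
          _ = s1 p := by rw [hab, s1_idem hp]
      refine ⟨e, f, hee, hff, hadd, hef, hfe, ?_, ?_⟩
      · apply VV.mk_eq.2
        have k1 := cutEqv hba hPP hPB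
        rw [he] at k1
        exact Eqv.trans (s1_idem hee) x.idem k1 (Eqv.stab x.idem)
      · apply VV.mk_eq.2
        have k1 := cutEqv hba hQQ hQB
        rw [hf] at k1
        exact Eqv.trans (s1_idem hff) y.idem k1 (stab2 y.idem)

end

theorem taskSplit : TaskSplit.{u} := by
  intro R _ p hp x y h
  exact split p hp x y h

end Pool.Agent.H853R3.NK.Split

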